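import Pool.Agent.U485.SM.Stm2

set_option autoImplicit false

/-!
Project HT (helper485), second round, package TRP (helper591): the triplets of the problem MP_dddec0.
-/

open Finset MeasureTheory ProbabilityTheory Filter Topology

namespace Pool.Agent.U591.HT

open Pool.Agent.U485.SM

lemma Pr_eq {y : ℕ} (hy : 3 ≤ y) :
    Pr y = insert 2 (insert 3 ((Finset.Icc 5 y).filter Nat.Prime)) := by
  ext n
  simp only [Pr, mem_filter, mem_Icc, mem_insert]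
  constructor
  · rintro ⟨⟨h1, h2⟩, h3⟩
    have h4 := h3.two_le
    by_cases h5 : 5 ≤ n
    · exact Or.inr (Or.inr ⟨⟨h5, h2⟩, h3⟩)
    · have h6 : n = 2 ∨ n = 3 ∨ n = 4 := by omega
      rcases h6 with h6 | h6 | h6
      · exact Or.inl h6
      · exact Or.inr (Or.inl h6)
      · rw [h6] at h3
        exact absurd h3 (by decide)
  · rintro (h | h | ⟨⟨h1, h2⟩, h3⟩)
    · subst h
      exact ⟨⟨by omega, by omega⟩, by decide⟩
    · subst h
      exact ⟨⟨by omega, by omega⟩, by decide⟩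
    · exact ⟨⟨by omega, h2⟩, h3⟩

lemma prod_Pr {y : ℕ} (hy : 3 ≤ y) (f : ℕ → ℝ) :
    ∏ p ∈ Pr y, f p = f 2 * (f 3 * ∏ p ∈ (Finset.Icc 5 y).filter Nat.Prime, f p) := by
  rw [Pr_eq hy, prod_insert, prod_insert]
  · simp
  · simp

lemma res_three {a b : ℕ} (ha : 0 < a) (hab : a < b) (hb : b < 7) (h5 : (b % 5 ≠ 0) ∧ (b % 5 ≠ a % 5) ∧ a % 5 ≠ 0)
    {p : ℕ} (hp : p.Prime) (hp5 : 5 ≤ p) : res {0, a, b} p = 3 := by
  unfold res
  have hp6 : p = 5 ∨ 7 ≤ p := by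
    by_contra h
    have : p = 6 := by omega
    rw [this] at hp
    exact absurd hp (by decide)
  have h0 : 0 % p = 0 := Nat.zero_mod p
  have key : (0 : ℕ) ≠ a % p ∧ (0 : ℕ) ≠ b % p ∧ a % p ≠ b % p := by
    rcases hp6 with h | h
    · subst h
      exact ⟨h5.2.2.symm, h5.1.symm, h5.2.1.symm⟩
    · rw [Nat.mod_eq_of_lt (by omega : a < p), Nat.mod_eq_of_lt (by omega : b < p)]
      omega
  rw [image_insert, image_insert, image_singleton, h0]
  rw [card_insert_of_notMem, card_insert_of_notMem, card_singleton]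
  · simpa using key.2.2
  · simp only [mem_insert, mem_singleton, not_or]
    exact ⟨key.1, key.2.1⟩

lemma term {p : ℕ} (hp : 5 ≤ p) :
    (1 - ((3 : ℕ) : ℝ) / p) * (1 - 1 / (p : ℝ))⁻¹ ^ 3 = (p : ℝ) ^ 2 * (p - 3) / (p - 1) ^ 3 := by
  have h : (5 : ℝ) ≤ p := by exact_mod_cast hp
  have h1 : (p : ℝ) ≠ 0 := by linarith
  have h2 : (p : ℝ) - 1 ≠ 0 := by linarith
  have h3 : 1 - 1 / (p : ℝ) = (p - 1) / p := by field_simp
  rw [h3, inv_div]
  push_cast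
  field_simp

lemma PP_three {a b : ℕ} (ha : 0 < a) (hab : a < b) (hb : b < 7)
    (h5 : (b % 5 ≠ 0) ∧ (b % 5 ≠ a % 5) ∧ a % 5 ≠ 0) (h2 : res {0, a, b} 2 = 1)
    (h3 : res {0, a, b} 3 = 2) {y : ℕ} (hy : 3 ≤ y) : PP {0, a, b} y = 9 / 2 * K3 y := by
  have hc : ({0, a, b} : Finset ℕ).card = 3 := by
    rw [card_insert_of_notMem, card_insert_of_notMem, card_singleton]
    · simp only [mem_singleton]; omega
    · simp only [mem_insert, mem_singleton]; omega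
  unfold PP K3
  rw [prod_Pr hy, h2, h3, hc]
  have e : ∏ p ∈ (Finset.Icc 5 y).filter Nat.Prime,
      ((1 - (res {0, a, b} p : ℝ) / p) * (1 - 1 / (p : ℝ))⁻¹ ^ 3) =
      ∏ p ∈ (Finset.Icc 5 y).filter Nat.Prime, ((p : ℝ) ^ 2 * (p - 3) / (p - 1) ^ 3) := by
    refine prod_congr rfl fun p hp => ?_
    simp only [mem_filter, mem_Icc] at hp
    rw [res_three ha hab hb h5 hp.2 hp.1.1, term hp.1.1]
  rw [e]
  norm_num
  ring

lemma tend {a b : ℕ} (ha : 0 < a) (hab : a < b) (hb : b < 7)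
    (h5 : (b % 5 ≠ 0) ∧ (b % 5 ≠ a % 5) ∧ a % 5 ≠ 0) (h2 : res {0, a, b} 2 = 1)
    (h3 : res {0, a, b} 3 = 2) {C : ℝ} (hC : Tendsto K3 atTop (𝓝 C)) :
    Tendsto (PP {0, a, b}) atTop (𝓝 (9 / 2 * C)) := by
  refine (hC.const_mul (9 / 2)).congr' ?_
  filter_upwards [eventually_ge_atTop 3] with y hy
  rw [PP_three ha hab hb h5 h2 h3 hy]

lemma PP_zero {y : ℕ} (hy : 3 ≤ y) : PP {0, 2, 4} y = 0 := by
  unfold PP
  rw [prod_Pr hy]
  have h : res {0, 2, 4} 3 = 3 := by decide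
  rw [h]
  norm_num

theorem t_TRP : S_TRP := by
  intro Q hQ C hC d η hd hη
  have h26 := tend (a := 2) (b := 6) (by norm_num) (by norm_num) (by norm_num) (by decide)
    (by decide) (by decide) hC
  have h46 := tend (a := 4) (b := 6) (by norm_num) (by norm_num) (by norm_num) (by decide)
    (by decide) (by decide) hC
  have h24 : Tendsto (PP {0, 2, 4}) atTop (𝓝 0) := by
    refine tendsto_const_nhds.congr' ?_
    filter_upwards [eventually_ge_atTop 3] with y hy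
    rw [PP_zero hy]
  filter_upwards [hQ _ _ h26 (d / 3) η (by linarith) hη, hQ _ _ h46 (d / 3) η (by linarith) hη,
    hQ _ _ h24 (d / 3) η (by linarith) hη, eventually_ge_atTop 1] with x e1 e2 e3 hx h hh hhx
  have e1 := e1 h hh hhx
  have e2 := e2 h hh hhx
  have e3 := e3 h hh hhx
  have hx1 : (1 : ℝ) ≤ x := by exact_mod_cast hx
  have hh0 : (0 : ℝ) < h := lt_of_lt_of_le (Real.rpow_pos_of_pos (by linarith) η) hh
  set S1 : Set ℕ := {n : ℕ | x < n ∧ n ≤ x + h ∧ ∀ j ∈ ({0, 2, 6} : Finset ℕ), n + j ∈ Q} with hS1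
  set S2 : Set ℕ := {n : ℕ | x < n ∧ n ≤ x + h ∧ ∀ j ∈ ({0, 4, 6} : Finset ℕ), n + j ∈ Q} with hS2
  set S3 : Set ℕ := {n : ℕ | x < n ∧ n ≤ x + h ∧ ∀ j ∈ ({0, 2, 4} : Finset ℕ), n + j ∈ Q} with hS3
  have fin : ∀ (p : ℕ → Prop), {n : ℕ | x < n ∧ n ≤ x + h ∧ p n}.Finite := fun p =>
    (Set.finite_Icc 0 (x + h)).subset fun n hn => ⟨Nat.zero_le n, hn.2.1⟩
  have f1 : S1.Finite := fin _
  have f2 : S2.Finite := fin _
  have f3 : S3.Finite := fin _
  have hS : {n : ℕ | x < n ∧ n ≤ x + h ∧ n ∈ Q ∧ (n + 2 ∈ Q ∨ n + 4 ∈ Q) ∧ n + 6 ∈ Q} = S1 ∪ S2 := by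
    ext n
    simp only [hS1, hS2, Set.mem_ofPred_eq, Set.mem_union, mem_insert, mem_singleton,
      forall_eq_or_imp, forall_eq, add_zero]
    tauto
  have hI : S1 ∩ S2 ⊆ S3 := by
    intro n
    simp only [hS1, hS2, hS3, Set.mem_ofPred_eq, Set.mem_inter_iff, mem_insert, mem_singleton,
      forall_eq_or_imp, forall_eq, add_zero]
    tauto
  have c1 := Set.ncard_union_add_ncard_inter S1 S2 f1 f2
  have c2 := Set.ncard_le_ncard hI f3
  have g1 : ((S1 ∪ S2).ncard : ℝ) = S1.ncard + S2.ncard - (S1 ∩ S2).ncard := by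
    have : ((S1 ∪ S2).ncard : ℝ) + (S1 ∩ S2).ncard = S1.ncard + S2.ncard := by exact_mod_cast c1
    linarith
  have g2 : ((S1 ∩ S2).ncard : ℝ) ≤ S3.ncard := by exact_mod_cast c2
  have n1 : (num Q {0, 2, 6} x (x + h) : ℝ) = S1.ncard := rfl
  have n2 : (num Q {0, 4, 6} x (x + h) : ℝ) = S2.ncard := rfl
  have n3 : (num Q {0, 2, 4} x (x + h) : ℝ) = S3.ncard := rfl
  have k1 : ({0, 2, 6} : Finset ℕ).card = 3 := by decide
  have k2 : ({0, 4, 6} : Finset ℕ).card = 3 := by decide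
  have k3 : ({0, 2, 4} : Finset ℕ).card = 3 := by decide
  rw [n1, k1] at e1
  rw [n2, k2] at e2
  rw [n3, k3] at e3
  rw [hS, g1]
  have hL : 0 ≤ Real.log x ^ 3 := pow_nonneg (Real.log_nonneg hx1) 3
  have i0 : 0 ≤ ((S1 ∩ S2).ncard : ℝ) * Real.log x ^ 3 := mul_nonneg (Nat.cast_nonneg _) hL
  have i1 : ((S1 ∩ S2).ncard : ℝ) * Real.log x ^ 3 ≤ S3.ncard * Real.log x ^ 3 :=
    mul_le_mul_of_nonneg_right g2 hL
  rw [abs_le] at e1 e2 e3 ⊢
  constructor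
  · rw [neg_le_sub_iff_le_add, ← sub_le_iff_le_add, le_div_iff₀ hh0]
    nlinarith [e1.1, e2.1, e3.2]
  · rw [sub_le_iff_le_add, div_le_iff₀ hh0]
    nlinarith [e1.2, e2.2, e3.1]

end Pool.Agent.U591.HT

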